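import Mathlib

namespace Pool.Agent.Results.MP_2af702_co.Incomparable

/-- Permutations of all finite sizes. -/
abbrev P := Σ n : ℕ, Equiv.Perm (Fin n)

/-- `f` is an occurrence of `σ` in `π`: it preserves the position order and the value order
(both in both directions, so it is injective). -/
def IsEmb {m n : ℕ} (σ : Equiv.Perm (Fin m)) (π : Equiv.Perm (Fin n)) (f : Fin m → Fin n) : Prop :=
  (∀ i j, i < j ↔ f i < f j) ∧ (∀ i j, σ i < σ j ↔ π (f i) < π (f j))

/-- `σ` is contained in `π`. -/
def Contained (σ π : P) : Prop := ∃ f, IsEmb σ.2 π.2 f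

/-- A permutation class: a set of permutations closed under containment. -/
def IsClass (C : Set P) : Prop := ∀ σ π : P, π ∈ C → Contained σ π → σ ∈ C

/-- `Av B`: the permutations containing no element of `B`. -/
def Av (B : Set P) : Set P := {π | ∀ σ ∈ B, ¬ Contained σ π}

/-- `C` is unsplittable: for all `σ, π ∈ C` there is `τ ∈ C` such that every red-blue colouring of
the entries of `τ` has a red (`true`) copy of `σ` or a blue (`false`) copy of `π`. -/
def Unsplittable (C : Set P) : Prop :=
  ∀ σ ∈ C, ∀ π ∈ C, ∃ τ ∈ C, ∀ c : Fin τ.1 → Bool,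
    (∃ f, IsEmb σ.2 τ.2 f ∧ ∀ i, c (f i) = true) ∨ (∃ f, IsEmb π.2 τ.2 f ∧ ∀ i, c (f i) = false)

/-- The permutation `2413` (in zero-based one-line notation `1302`). -/
def p2413 : Equiv.Perm (Fin 4) := ⟨![1, 3, 0, 2], ![2, 0, 3, 1], by decide, by decide⟩

/-- The permutation `3142` (in zero-based one-line notation `2031`). -/
def p3142 : Equiv.Perm (Fin 4) := ⟨![2, 0, 3, 1], ![1, 3, 0, 2], by decide, by decide⟩

/-- The separable permutations `Av(2413, 3142)`. -/
def Sep : Set P := Av {⟨4, p2413⟩, ⟨4, p3142⟩}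

/-! ### The structure -/

/-- Words `l s₁ (l s₂ (... (u t)))`. -/
inductive M : Type
  | u (t : ℕ) : M
  | l (s : ℕ) (z : M) : M

def X : M → List ℤ
  | .u t => [2 * (t : ℤ) + 1]
  | .l s z => (2 * (s : ℤ)) :: X z

def Y : M → List (ℤ ×ₗ ℤ)
  | .u t => [toLex (1, -(t : ℤ))]
  | .l s z => toLex (0, -(s : ℤ)) :: Y z

lemma Xu (t : ℕ) : X (.u t) = [2 * (t : ℤ) + 1] := rfl
lemma Xl (s : ℕ) (z : M) : X (.l s z) = (2 * (s : ℤ)) :: X z := rfl
lemma Yu (t : ℕ) : Y (.u t) = [toLex (1, -(t : ℤ))] := rfl
lemma Yl (s : ℕ) (z : M) : Y (.l s z) = toLex (0, -(s : ℤ)) :: Y z := rfl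

lemma X_inj : ∀ a b : M, X a = X b → a = b
  | .u t, .u t', h => by
      simp only [Xu, List.cons.injEq, and_true] at h
      have : t = t' := by omega
      rw [this]
  | .u t, .l s z, h => by
      simp only [Xu, Xl, List.cons.injEq] at h
      omega
  | .l s z, .u t, h => by
      simp only [Xu, Xl, List.cons.injEq] at h
      omega
  | .l s z, .l s' z', h => by
      simp only [Xl, List.cons.injEq] at h
      have h1 : s = s' := by omega
      rw [h1, X_inj z z' h.2]

lemma Y_inj : ∀ a b : M, Y a = Y b → a = b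
  | .u t, .u t', h => by
      simp only [Yu, List.cons.injEq, and_true, EmbeddingLike.apply_eq_iff_eq, Prod.mk.injEq,
        true_and] at h
      have : t = t' := by omega
      rw [this]
  | .u t, .l s z, h => by
      simp only [Yu, Yl, List.cons.injEq, EmbeddingLike.apply_eq_iff_eq, Prod.mk.injEq] at h
      omega
  | .l s z, .u t, h => by
      simp only [Yu, Yl, List.cons.injEq, EmbeddingLike.apply_eq_iff_eq, Prod.mk.injEq] at h
      omega
  | .l s z, .l s' z', h => by
      simp only [Yl, List.cons.injEq, EmbeddingLike.apply_eq_iff_eq, Prod.mk.injEq] at h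
      have h1 : s = s' := by omega
      rw [h1, Y_inj z z' h.2]

/-! comparison lemmas -/
lemma Xuu (t t' : ℕ) : X (.u t) < X (.u t') ↔ t < t' := by
  rw [Xu, Xu, List.cons_lt_cons_iff]
  simp only [lt_self_iff_false, and_false, or_false]
  omega

lemma Xul (t s : ℕ) (z : M) : X (.u t) < X (.l s z) ↔ t < s := by
  rw [Xu, Xl, List.cons_lt_cons_iff]
  constructor
  · rintro (h | h) <;> omega
  · intro h; left; omega

lemma Xlu (t s : ℕ) (z : M) : X (.l s z) < X (.u t) ↔ s ≤ t := by
  rw [Xu, Xl, List.cons_lt_cons_iff]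
  constructor
  · rintro (h | h) <;> omega
  · intro h; left; omega

lemma Xll (s s' : ℕ) (z z' : M) : X (.l s z) < X (.l s' z') ↔ s < s' ∨ s = s' ∧ X z < X z' := by
  rw [Xl, Xl, List.cons_lt_cons_iff]
  constructor
  · rintro (h | ⟨h, h'⟩)
    · left; omega
    · right; exact ⟨by omega, h'⟩
  · rintro (h | ⟨h, h'⟩)
    · left; omega
    · right; exact ⟨by omega, h'⟩

lemma lex_lt (a b c d : ℤ) : toLex (a, b) < toLex (c, d) ↔ a < c ∨ a = c ∧ b < d := by
  rw [Prod.Lex.toLex_lt_toLex]

lemma lex_eq (a b c d : ℤ) : toLex (a, b) = toLex (c, d) ↔ a = c ∧ b = d := by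
  simp

lemma Yuu (t t' : ℕ) : Y (.u t) < Y (.u t') ↔ t' < t := by
  rw [Yu, Yu, List.cons_lt_cons_iff, lex_lt]
  simp only [lt_self_iff_false, and_false, or_false, false_or, true_and]
  omega

lemma Yul (t s : ℕ) (z : M) : ¬ Y (.u t) < Y (.l s z) := by
  rw [Yu, Yl, List.cons_lt_cons_iff, lex_lt, lex_eq]
  rintro (h | h) <;> omega

lemma Ylu (t s : ℕ) (z : M) : Y (.l s z) < Y (.u t) := by
  rw [Yu, Yl, List.cons_lt_cons_iff, lex_lt, lex_eq]
  left; left; omega

lemma Yll (s s' : ℕ) (z z' : M) :
    Y (.l s z) < Y (.l s' z') ↔ s' < s ∨ s = s' ∧ Y z < Y z' := by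
  rw [Yl, Yl, List.cons_lt_cons_iff, lex_lt, lex_eq]
  constructor
  · rintro (h | ⟨h, h'⟩)
    · left; omega
    · right; exact ⟨by omega, h'⟩
  · rintro (h | ⟨h, h'⟩)
    · left; omega
    · right; exact ⟨by omega, h'⟩

/-- `e` draws `π` on points of `M`. -/
def Draw {n : ℕ} (π : Equiv.Perm (Fin n)) (e : Fin n → M) : Prop :=
  (∀ i j, i < j ↔ X (e i) < X (e j)) ∧ (∀ i j, π i < π j ↔ Y (e i) < Y (e j))

/-- The class: all permutations that can be drawn on points of `M`. -/
def D : Set P := {π | ∃ e, Draw π.2 e}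

lemma D_class : IsClass D := by
  rintro σ π ⟨e, he⟩ ⟨f, hf⟩
  exact ⟨fun i => e (f i), fun i j => (hf.1 i j).trans (he.1 _ _),
    fun i j => (hf.2 i j).trans (he.2 _ _)⟩

lemma enum {S : Type} [Fintype S] {L : Type} [LinearOrder L] (f : S → L)
    (hf : Function.Injective f) (n : ℕ) (hn : Fintype.card S = n) :
    ∃ e : Fin n ≃ S, ∀ i j, i < j ↔ f (e i) < f (e j) := by
  classical
  let _ : LinearOrder S := LinearOrder.lift' f hf
  let o : Fin n ≃o S := monoEquivOfFin S hn
  refine ⟨o.toEquiv, fun i j => ?_⟩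
  have h1 : i < j ↔ o i < o j := (OrderIso.lt_iff_lt o).symm
  exact h1

lemma exists_perm (S : Finset M) :
    ∃ (n : ℕ) (π : Equiv.Perm (Fin n)) (e : Fin n → M), Draw π e ∧ Set.range e = (S : Set M) := by
  classical
  obtain ⟨eX, hX⟩ := enum (S := S) (fun z => X z.1)
    (fun a b h => Subtype.ext (X_inj _ _ h)) (Fintype.card S) rfl
  obtain ⟨eY, hY⟩ := enum (S := S) (fun z => Y z.1)
    (fun a b h => Subtype.ext (Y_inj _ _ h)) (Fintype.card S) rfl
  refine ⟨Fintype.card S, eX.trans eY.symm, fun i => (eX i).1, ⟨hX, fun i j => ?_⟩, ?_⟩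
  · rw [hY]
    simp
  · ext z
    constructor
    · rintro ⟨i, rfl⟩
      exact (eX i).2
    · intro hz
      exact ⟨eX.symm ⟨z, hz⟩, by simp⟩

/-- number of letters -/
def dep : M → ℕ
  | .u _ => 0
  | .l _ z => dep z + 1

/-- prefix a word of lower letters -/
def app : List ℕ → M → M
  | [], z => z
  | s :: w, z => .l s (app w z)

lemma app_X (w : List ℕ) (a b : M) : X (app w a) < X (app w b) ↔ X a < X b := by
  induction w with
  | nil => rfl
  | cons s w ih => simp only [app, Xll, lt_self_iff_false, true_and, false_or, ih]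

lemma app_Y (w : List ℕ) (a b : M) : Y (app w a) < Y (app w b) ↔ Y a < Y b := by
  induction w with
  | nil => rfl
  | cons s w ih => simp only [app, Yll, lt_self_iff_false, true_and, false_or, ih]

lemma app_app (w v : List ℕ) (z : M) : app (w ++ v) z = app w (app v z) := by
  induction w with
  | nil => rfl
  | cons s w ih => simp only [List.cons_append, app, ih]

/-- Embedding the words of bounded depth into a set of points that is rich below every node. -/
lemma embed (q : M → Prop)
    (H : ∀ w : List ℕ, ∃ v : List ℕ, {j : ℕ | q (app (w ++ v) (.u j))}.Infinite) :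
    ∀ (d : ℕ) (w : List ℕ), ∃ f : M → M,
      (∀ a b, dep a ≤ d → dep b ≤ d → (X a < X b ↔ X (f a) < X (f b)) ∧
        (Y a < Y b ↔ Y (f a) < Y (f b))) ∧
      ∀ z, dep z ≤ d → q (f z) ∧ ∃ y, f z = app w y := by
  intro d
  induction d with
  | zero =>
    intro w
    obtain ⟨v, hv⟩ := H w
    let g : ℕ → ℕ := Nat.nth (fun j => q (app (w ++ v) (.u j)))
    have hg : StrictMono g := Nat.nth_strictMono hv
    have hq : ∀ k, q (app (w ++ v) (.u (g k))) := fun k => Nat.nth_mem_of_infinite hv k
    refine ⟨fun z => app (w ++ v) (.u (g (match z with | .u t => t | .l _ _ => 0))), ?_, ?_⟩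
    · intro a b ha hb
      cases a with
      | u t =>
        cases b with
        | u t' =>
          simp only [app_X, app_Y, Xuu, Yuu, hg.lt_iff_lt, and_self]
        | l s z => simp [dep] at hb
      | l s z => simp [dep] at ha
    · intro z hz
      cases z with
      | u t => exact ⟨hq _, app v (.u (g t)), app_app _ _ _⟩
      | l s z => simp [dep] at hz
  | succ d ih =>
    intro w
    obtain ⟨v, hv⟩ := H w
    let g : ℕ → ℕ := Nat.nth (fun j => q (app (w ++ v) (.u j)))
    have hg : StrictMono g := Nat.nth_strictMono hv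
    have hq : ∀ k, q (app (w ++ v) (.u (g k))) := fun k => Nat.nth_mem_of_infinite hv k
    have hc : ∀ k, ∃ f : M → M,
      (∀ a b, dep a ≤ d → dep b ≤ d → (X a < X b ↔ X (f a) < X (f b)) ∧
        (Y a < Y b ↔ Y (f a) < Y (f b))) ∧
      ∀ z, dep z ≤ d → q (f z) ∧ ∃ y, f z = app (w ++ v ++ [g k]) y := fun k => ih _
    choose F hF1 hF2 using hc
    let f : M → M := fun z => match z with
      | .u t => app (w ++ v) (.u (g t))
      | .l s z => F s z
    have fu : ∀ t, f (.u t) = app (w ++ v) (.u (g t)) := fun t => rfl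
    have fl : ∀ s z, dep z ≤ d → ∃ y, f (.l s z) = app (w ++ v) (.l (g s) y) := by
      intro s z hz
      obtain ⟨y, hy⟩ := (hF2 s z hz).2
      refine ⟨y, ?_⟩
      show F s z = _
      rw [hy, app_app]
      rfl
    refine ⟨f, ?_, ?_⟩
    · intro a b ha hb
      cases a with
      | u t =>
        cases b with
        | u t' =>
          rw [fu, fu]
          simp only [app_X, app_Y, Xuu, Yuu, hg.lt_iff_lt, and_self]
        | l s z =>
          obtain ⟨y, hy⟩ := fl s z (by simpa [dep] using hb)
          rw [fu, hy]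
          simp only [app_X, app_Y, Xul, hg.lt_iff_lt, true_and]
          exact iff_of_false (Yul _ _ _) (Yul _ _ _)
      | l s z =>
        cases b with
        | u t =>
          obtain ⟨y, hy⟩ := fl s z (by simpa [dep] using ha)
          rw [fu, hy]
          simp only [app_X, app_Y, Xlu, hg.le_iff_le, true_and]
          exact iff_of_true (Ylu _ _ _) (Ylu _ _ _)
        | l s' z' =>
          have hz : dep z ≤ d := by simpa [dep] using ha
          have hz' : dep z' ≤ d := by simpa [dep] using hb
          by_cases hs : s = s'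
          · subst hs
            have := hF1 s z z' hz hz'
            simp only [Xll, Yll, lt_self_iff_false, true_and, false_or]
            exact this
          · obtain ⟨y, hy⟩ := fl s z hz
            obtain ⟨y', hy'⟩ := fl s' z' hz'
            have hgs : g s ≠ g s' := fun h => hs (hg.injective h)
            rw [hy, hy']
            simp only [app_X, app_Y, Xll, Yll, hs, hgs, false_and, or_false, hg.lt_iff_lt, and_self]
    · intro z hz
      cases z with
      | u t => exact ⟨hq t, app v (.u (g t)), by rw [fu, app_app]⟩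
      | l s z =>
        have hz' : dep z ≤ d := by simpa [dep] using hz
        obtain ⟨y, hy⟩ := (hF2 s z hz').2
        refine ⟨(hF2 s z hz').1, app (v ++ [g s]) y, ?_⟩
        show F s z = _
        rw [hy, ← app_app, List.append_assoc]

/-- For every colouring of `M`, words of bounded depth embed in one colour class. -/
lemma mono_copy (c : M → Prop) (d : ℕ) :
    (∃ f : M → M, (∀ a b, dep a ≤ d → dep b ≤ d → (X a < X b ↔ X (f a) < X (f b)) ∧
        (Y a < Y b ↔ Y (f a) < Y (f b))) ∧ ∀ z, dep z ≤ d → c (f z)) ∨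
    (∃ f : M → M, (∀ a b, dep a ≤ d → dep b ≤ d → (X a < X b ↔ X (f a) < X (f b)) ∧
        (Y a < Y b ↔ Y (f a) < Y (f b))) ∧ ∀ z, dep z ≤ d → ¬ c (f z)) := by
  by_cases H : ∀ w : List ℕ, ∃ v : List ℕ, {j : ℕ | c (app (w ++ v) (.u j))}.Infinite
  · left
    obtain ⟨f, hf, hf'⟩ := embed c H d []
    exact ⟨f, hf, fun z hz => (hf' z hz).1⟩
  · right
    push Not at H
    obtain ⟨w, hw⟩ := H
    have H' : ∀ w' : List ℕ, ∃ v : List ℕ, {j : ℕ | ¬ c (app w (app (w' ++ v) (.u j)))}.Infinite := by
      intro w'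
      refine ⟨[], ?_⟩
      have h1 := hw w'
      intro h2
      apply Set.infinite_univ (α := ℕ)
      refine (h1.union h2).subset ?_
      intro j _
      by_cases hj : c (app (w ++ w') (.u j))
      · left; exact hj
      · right
        show ¬ c (app w (app (w' ++ []) (.u j)))
        rw [List.append_nil, ← app_app]
        exact hj
    obtain ⟨f, hf, hf'⟩ := embed (fun z => ¬ c (app w z)) H' d []
    refine ⟨fun z => app w (f z), fun a b ha hb => ?_, fun z hz => (hf' z hz).1⟩
    rw [app_X, app_Y]
    exact hf a b ha hb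

lemma Draw.inj {n : ℕ} {π : Equiv.Perm (Fin n)} {e : Fin n → M} (h : Draw π e) :
    Function.Injective e := by
  intro i j hij
  rcases lt_trichotomy i j with h1 | h1 | h1
  · have := (h.1 i j).1 h1
    rw [hij] at this
    exact absurd this (lt_irrefl _)
  · exact h1
  · have := (h.1 j i).1 h1
    rw [hij] at this
    exact absurd this (lt_irrefl _)

lemma bdd_dep {n : ℕ} (e : Fin n → M) : ∃ d, ∀ i, dep (e i) ≤ d :=
  ⟨Finset.univ.sup (fun i => dep (e i)), fun i => Finset.le_sup (f := fun i => dep (e i)) (Finset.mem_univ i)⟩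

theorem D_unsplittable : Unsplittable D := by
  classical
  rintro ⟨m, σ⟩ ⟨eσ, hσ⟩ ⟨m', π⟩ ⟨eπ, hπ⟩
  by_contra hcon
  push Not at hcon
  choose n τ e he hr using exists_perm
  -- a bad colouring for each finite set
  have hbad : ∀ S : Finset M, ∃ c : Fin (n S) → Bool,
      (∀ f, IsEmb σ (τ S) f → ∃ i, c (f i) ≠ true) ∧
      (∀ f, IsEmb π (τ S) f → ∃ i, c (f i) ≠ false) := fun S => hcon ⟨n S, τ S⟩ ⟨e S, he S⟩
  choose κ hκ1 hκ2 using hbad
  -- colourings of `M`
  let C : Finset M → M → Prop := fun S x => ∃ i, e S i = x ∧ κ S i = true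
  let U : Ultrafilter (Finset M) := Ultrafilter.of Filter.atTop
  have hU : (U : Filter (Finset M)) ≤ Filter.atTop := Ultrafilter.of_le _
  let c : M → Prop := fun x => ∀ᶠ S in (U : Filter (Finset M)), C S x
  obtain ⟨d1, hd1⟩ := bdd_dep eσ
  obtain ⟨d2, hd2⟩ := bdd_dep eπ
  rcases mono_copy c (max d1 d2) with ⟨f, hf, hfc⟩ | ⟨f, hf, hfc⟩
  · have h1 : ∀ᶠ S in (U : Filter (Finset M)), ∀ i, C S (f (eσ i)) :=
      Filter.eventually_all.2 (fun i => hfc (eσ i) ((hd1 i).trans (le_max_left _ _)))
    obtain ⟨S, hS⟩ := h1.exists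
    choose g hg hgc using hS
    have hemb : IsEmb σ (τ S) g := by
      refine ⟨fun i j => ?_, fun i j => ?_⟩
      · rw [hσ.1, (he S).1, hg, hg]
        exact (hf _ _ ((hd1 i).trans (le_max_left _ _)) ((hd1 j).trans (le_max_left _ _))).1
      · rw [hσ.2, (he S).2, hg, hg]
        exact (hf _ _ ((hd1 i).trans (le_max_left _ _)) ((hd1 j).trans (le_max_left _ _))).2
    obtain ⟨i, hi⟩ := hκ1 S g hemb
    exact hi (hgc i)
  · have h1 : ∀ᶠ S in (U : Filter (Finset M)), ∀ i, ¬ C S (f (eπ i)) :=
      Filter.eventually_all.2 (fun i => Ultrafilter.eventually_not.2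
        (hfc (eπ i) ((hd2 i).trans (le_max_right _ _))))
    have h2 : ∀ᶠ S in (U : Filter (Finset M)), Finset.univ.image (fun i => f (eπ i)) ⊆ S :=
      hU (Filter.eventually_ge_atTop _)
    obtain ⟨S, hS, hS2⟩ := (h1.and h2).exists
    have h3 : ∀ i, ∃ k, e S k = f (eπ i) := by
      intro i
      have : f (eπ i) ∈ Set.range (e S) := by
        rw [hr]
        exact hS2 (Finset.mem_image_of_mem _ (Finset.mem_univ i))
      exact this
    choose g hg using h3
    have hemb : IsEmb π (τ S) g := by
      refine ⟨fun i j => ?_, fun i j => ?_⟩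
      · rw [hπ.1, (he S).1, hg, hg]
        exact (hf _ _ ((hd2 i).trans (le_max_right _ _)) ((hd2 j).trans (le_max_right _ _))).1
      · rw [hπ.2, (he S).2, hg, hg]
        exact (hf _ _ ((hd2 i).trans (le_max_right _ _)) ((hd2 j).trans (le_max_right _ _))).2
    obtain ⟨i, hi⟩ := hκ2 S g hemb
    apply hS i
    refine ⟨g i, hg i, ?_⟩
    simpa using hi

/-- no point of `M` has a copy of `231` above and to the right of it -/
lemma no1342 : ∀ x a b c : M, X x < X a → Y x < Y c → X a < X b → X b < X c → Y c < Y a →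
    Y a < Y b → False
  | .u t, a, b, c, h1, h2, h3, h4, h5, h6 => by
      cases c with
      | u tc =>
        rw [Yuu] at h2
        cases a with
        | u ta =>
          cases b with
          | u tb =>
            rw [Yuu] at h5 h6
            rw [Xuu] at h3 h4 h1
            omega
          | l s z => exact Yul _ _ _ h6
        | l s z => exact Yul _ _ _ h5
      | l s z => exact Yul _ _ _ h2
  | .l s x', a, b, c, h1, h2, h3, h4, h5, h6 => by
      have hxb : X (.l s x') < X b := h1.trans h3
      have hxc : X (.l s x') < X c := hxb.trans h4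
      have hya : Y (.l s x') < Y a := h2.trans h5
      have hyb : Y (.l s x') < Y b := hya.trans h6
      have same : ∀ s' y, X (.l s x') < X (.l s' y) → Y (.l s x') < Y (.l s' y) →
          s' = s ∧ X x' < X y ∧ Y x' < Y y := by
        intro s' y h h'
        rw [Xll] at h
        rw [Yll] at h'
        rcases h with h | h
        · rcases h' with h' | h'
          · omega
          · omega
        · rcases h' with h' | h'
          · omega
          · exact ⟨h.1.symm, h.2, h'.2⟩
      cases c with
      | u tc =>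
        cases a with
        | u ta =>
          cases b with
          | u tb =>
            rw [Yuu] at h5 h6
            rw [Xuu] at h3 h4
            omega
          | l s z => exact Yul _ _ _ h6
        | l s z => exact Yul _ _ _ h5
      | l sc c' =>
        obtain ⟨rfl, hc1, hc2⟩ := same _ _ hxc h2
        cases b with
        | u tb =>
          rw [Xul] at h4
          rw [Xlu] at hxb
          omega
        | l sb b' =>
          obtain ⟨rfl, hb1, hb2⟩ := same _ _ hxb hyb
          cases a with
          | u ta =>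
            rw [Xul] at h3
            rw [Xlu] at h1
            omega
          | l sa a' =>
            obtain ⟨rfl, ha1, ha2⟩ := same _ _ h1 hya
            rw [Xll] at h3 h4
            rw [Yll] at h5 h6
            have k3 : X a' < X b' := by rcases h3 with h | h; omega; exact h.2
            have k4 : X b' < X c' := by rcases h4 with h | h; omega; exact h.2
            have k5 : Y c' < Y a' := by rcases h5 with h | h; omega; exact h.2
            have k6 : Y a' < Y b' := by rcases h6 with h | h; omega; exact h.2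
            exact no1342 x' a' b' c' ha1 hc2 k3 k4 k5 k6

/-- The permutation `1342` (in zero-based one-line notation `0231`). -/
def p1342 : Equiv.Perm (Fin 4) := ⟨![0, 2, 3, 1], ![0, 3, 1, 2], by decide, by decide⟩

lemma emb4 {f : Fin 4 → Fin 4} {σ π : Equiv.Perm (Fin 4)} (h : IsEmb σ π f) : f = id := by
  have h01 := (h.1 0 1).1 (by decide)
  have h12 := (h.1 1 2).1 (by decide)
  have h23 := (h.1 2 3).1 (by decide)
  have l3 := (f 3).2
  rw [Fin.lt_def] at h01 h12 h23
  funext i
  apply Fin.ext
  fin_cases i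
  · show (f 0).1 = 0; omega
  · show (f 1).1 = 1; omega
  · show (f 2).1 = 2; omega
  · show (f 3).1 = 3; omega

lemma sep1342 : (⟨4, p1342⟩ : P) ∈ Sep := by
  intro σ hσ
  rcases hσ with rfl | hσ
  · rintro ⟨f, hf⟩
    have := emb4 hf
    subst this
    exact absurd (hf.2 0 2) (by decide)
  · have hσ' : σ = ⟨4, p3142⟩ := hσ
    subst hσ'
    rintro ⟨f, hf⟩
    have := emb4 hf
    subst this
    exact absurd (hf.2 0 1) (by decide)

/-- There is an unsplittable permutation class that neither contains nor is contained in the class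
of separable permutations. -/
theorem result : ∃ C : Set P, IsClass C ∧ Unsplittable C ∧ ¬ Sep ⊆ C ∧ ¬ C ⊆ Sep := by
  refine ⟨D, D_class, D_unsplittable, fun h => ?_, fun h => ?_⟩
  · obtain ⟨e, he⟩ := h sep1342
    exact no1342 (e 0) (e 1) (e 2) (e 3) ((he.1 0 1).1 (by decide)) ((he.2 0 3).1 (by decide))
      ((he.1 1 2).1 (by decide)) ((he.1 2 3).1 (by decide)) ((he.2 3 1).1 (by decide))
      ((he.2 1 2).1 (by decide))
  · have hD : (⟨4, p2413⟩ : P) ∈ D := by
      refine ⟨![.l 0 (.u 0), .u 0, .l 1 (.u 0), .u 1], ?_, ?_⟩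
      · intro i j
        fin_cases i <;> fin_cases j <;> simp [Xuu, Xul, Xlu, Xll]
      · intro i j
        fin_cases i <;> fin_cases j <;> simp [Yuu, Yul, Ylu, Yll, p2413]
    exact h hD ⟨4, p2413⟩ (Or.inl rfl) ⟨id, fun i j => Iff.rfl, fun i j => Iff.rfl⟩

end Pool.Agent.Results.MP_2af702_co.Incomparable
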